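import Pool.Agent.Lib.helper22.KG

set_option autoImplicit false

namespace Pool.Agent.Results.MP_a7dd6b_lc.Poly

open Pool.Agent.H.MP_d04dff_lc Pool.Agent.Lib.helper21.KC Pool.Agent.Lib.AK

theorem result (U : List Bool → List Bool →. List Bool) (hU : OptC U)
    (e : List Bool × List Bool → List Bool) (he : Computable e) (hi : Function.Injective e) :
    ∃ c : ℝ, ∀ (n : ℕ) (x y z : List Bool), K (fun p => U p []) (e (x, y)) ≤ n → ∃ z' : List Bool,
      |(K (fun p => U p z) x : ℝ) - K (fun p => U p z') x| ≤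
        c * Real.logb 2 (2 + (n + K (fun p => U p []) z : ℕ)) ∧
      |(K (fun p => U p z) y : ℝ) - K (fun p => U p z') y| ≤
        c * Real.logb 2 (2 + (n + K (fun p => U p []) z : ℕ)) ∧
      |(K (fun p => U p z) (e (x, y)) : ℝ) - K (fun p => U p z') (e (x, y))| ≤
        c * Real.logb 2 (2 + (n + K (fun p => U p []) z : ℕ)) ∧
      (K (fun p => U p (e (x, y))) z' : ℝ) ≤ c * Real.logb 2 (2 + (n + K (fun p => U p []) z : ℕ)) := by
  have : Fact (OptC U) := ⟨hU⟩
  obtain ⟨w, h⟩ := ak_str (U := U) he hi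
    (I := {i : ℕ × Str × Str × Str // K (fun p => U p []) (e (i.2.1, i.2.2.1)) ≤ i.1})
    (N := fun i => i.1.1 + K (fun p => U p []) i.1.2.2.2) (x := fun i => i.1.2.1) (y := fun i => i.1.2.2.1)
    (z := fun i => i.1.2.2.2) (.ofK fun i => i.2.trans (Nat.le_add_right _ _)) (.ofK fun i => Nat.le_add_left _ _)
  obtain ⟨c, hc⟩ := h.exists
  refine ⟨(2 * c : ℕ), fun n x y z hn => ?_⟩
  obtain ⟨h1, h2, h3, h4⟩ := hc ⟨(n, x, y, z), hn⟩
  exact ⟨_, h1.abs, h2.abs, h3.abs, (le_abs_self _).trans (by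
    simpa using abs_real (b := 0) (h4.trans (Nat.le_add_left _ _)) (Nat.zero_le _))⟩

end Pool.Agent.Results.MP_a7dd6b_lc.Poly
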